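import Pool.Agent.WeirdK.Order

/-!
# The exact order of the abundancy threshold for sums of distinct small divisors
-/

open Finset Real

namespace Pool.Agent.Results.MP_9b74c8_nt.ExactOrder

/-- For every sufficiently large integer `K`, with `F = log K * logloglog K / loglog K`: every
`n > 0` with `σ(n) / n ≥ 368 * F` is a sum of distinct divisors `d` with `K * d ≤ n`, and there
is an `n > 0` with `σ(n) / n ≥ F / 600` that is not such a sum. -/
theorem result : ∃ K₀ : ℕ, ∀ K : ℕ, K₀ ≤ K →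
    (∀ n : ℕ, 0 < n →
      368 * (log K * log (log (log K)) / log (log K)) ≤ ((∑ d ∈ n.divisors, d : ℕ) : ℝ) / n →
        ∃ s ⊆ n.divisors, (∀ d ∈ s, K * d ≤ n) ∧ ∑ d ∈ s, d = n) ∧
    (∃ n : ℕ, 0 < n ∧
      1 / 600 * (log K * log (log (log K)) / log (log K)) ≤
        ((∑ d ∈ n.divisors, d : ℕ) : ℝ) / n ∧
      ¬ ∃ s ⊆ n.divisors, (∀ d ∈ s, K * d ≤ n) ∧ ∑ d ∈ s, d = n) :=
  WeirdK.exact_order_K

end Pool.Agent.Results.MP_9b74c8_nt.ExactOrder
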