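import Pool.Agent.WeirdK.Order

/-!
# Numbers of large abundancy index are sums of distinct small divisors
-/

open Finset

namespace Pool.Agent.Results.MP_9b74c8_nt.SmallDivisors

/-- If `n > 0` is not a sum of distinct proper divisors `d` of `n` with `2 ^ k * d ≤ n`, then
`σ(n) / n < (7 / 4) * max k 82`. For `k = 0` the condition on `n` is that no set of proper
divisors of `n` has sum `n`. -/
theorem result (k n : ℕ) (hn : 0 < n)
    (h : ¬ ∃ s ⊆ n.properDivisors, (∀ d ∈ s, 2 ^ k * d ≤ n) ∧ ∑ d ∈ s, d = n) :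
    4 * ∑ d ∈ n.divisors, d < 7 * max k 82 * n := by
  have h1 : ¬ WeirdK.Rep (2 ^ max k 1) n := by
    rintro ⟨s, hs, hK, hsum⟩
    apply h
    refine ⟨s, ?_, ?_, hsum⟩
    · intro d hd
      rw [Nat.mem_properDivisors]
      have h2 := hK d hd
      have h3 : 2 ^ 1 ≤ 2 ^ max k 1 := Nat.pow_le_pow_right (by norm_num) (le_max_right _ _)
      have h4 : 0 < d := Nat.pos_of_mem_divisors (hs hd)
      refine ⟨Nat.dvd_of_mem_divisors (hs hd), ?_⟩
      have h5 : 2 ^ 1 * d ≤ n := (Nat.mul_le_mul_right d h3).trans h2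
      omega
    · intro d hd
      have h3 : 2 ^ k ≤ 2 ^ max k 1 := Nat.pow_le_pow_right (by norm_num) (le_max_left _ _)
      exact (Nat.mul_le_mul_right d h3).trans (hK d hd)
  have h2 := WeirdK.abund_lt_max hn h1
  have h3 : max (max k 1) 82 = max k 82 := by omega
  rwa [h3] at h2

end Pool.Agent.Results.MP_9b74c8_nt.SmallDivisors
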